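import Pool.Agent.H24.CL.TargetsK

/-!
# All popular paths (helper24)
-/

set_option autoImplicit false

open Finset MeasureTheory

namespace Pool.Agent.H24.CLK

open Pool.Agent.H24.CL

/-- the paths of the digits above `j` -/
structure PJ (k q r j b₁ : ℕ) (W : ℕ → Set (X k)) (R : ℕ → ℕ) (Y : Finset (X k)) (hd : ℕ → ℕ)
    (p : ℕ → X k → List ℕ) (s : ℕ → X k → X k) : Prop where
  pt : ∀ e, j < e → e ≤ k → ∀ y ∈ Y, (p e y).length = e - 1 ∧ (∀ b ∈ p e y, b < q) ∧
    (p e y).head? = some (hd e) ∧ s e y ∈ H k q r ∧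
    ∀ t, 1 ≤ t → t + 1 ≤ e → Ch q ((p e y).take t) (y + s e y) ∈ W t
  ne : ∀ e, j < e → e ≤ k → hd e ≠ b₁
  inj : ∀ e e', j < e → e ≤ k → j < e' → e' ≤ k → hd e = hd e' → e = e'
  same : ∀ e, j < e → e ≤ k → ∀ y ∈ Y, ∀ y' ∈ Y, ∀ l, 1 ≤ l → l + 2 ≤ e →
    max 1 (R l) + l < e → (p e y)[l]? = (p e y')[l]?

/-- the exponent of the level `l` after the digits above `j` -/
def cj (k j : ℕ) (R : ℕ → ℕ) (l : ℕ) : ℕ :=
  ((Ioc j k).filter fun e => max 1 (R l) + l < e).card

theorem cj_succ (k j : ℕ) (R : ℕ → ℕ) (l : ℕ) (hj : j < k) :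
    cj k j R l = cj k (j + 1) R l + if max 1 (R l) + l < j + 1 then 1 else 0 := by
  unfold cj
  have h1 : Ioc j k = insert (j + 1) (Ioc (j + 1) k) := by
    ext x
    simp only [mem_Ioc, mem_insert]
    omega
  rw [h1, Finset.filter_insert]
  split_ifs with h
  · rw [Finset.card_insert_of_notMem]
    simp
  · simp

theorem cj_wt (k r : ℕ) (R : ℕ → ℕ) (l : ℕ) : cj k r R l = wt k r (R l) l := by
  unfold cj wt
  have h1 : (Ioc r k).filter (fun e => max 1 (R l) + l < e) = Ioc (max r (max 1 (R l) + l)) k := by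
    ext x
    simp only [mem_Ioc, mem_filter, max_lt_iff]
    omega
  rw [h1, Nat.card_Ioc]
  omega

theorem prod_step (k j : ℕ) (R : ℕ → ℕ) (a : ℕ → ℝ) (hj1 : 1 ≤ j) (hj : j < k) :
    (∏ l ∈ Icc 1 (k - 2), a l ^ cj k (j + 1) R l) *
      ∏ l ∈ (Icc 1 (j + 1 - 2)).filter (fun l => max 1 (R l) + l < j + 1), a l =
    ∏ l ∈ Icc 1 (k - 2), a l ^ cj k j R l := by
  have h1 : (Icc 1 (j + 1 - 2)).filter (fun l => max 1 (R l) + l < j + 1) =
      (Icc 1 (k - 2)).filter (fun l => max 1 (R l) + l < j + 1) := by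
    ext x
    simp only [mem_Icc, mem_filter]
    omega
  rw [h1, Finset.prod_filter, ← Finset.prod_mul_distrib]
  refine Finset.prod_congr rfl fun l _ => ?_
  rw [cj_succ k j R l hj]
  split_ifs with h
  · rw [pow_succ]
  · rw [add_zero, mul_one]

theorem pf_PA (hPP : TK_PP) : TK_PA := by
  classical
  intro k hk
  refine ⟨2 ^ k, one_le_pow₀ (by norm_num), ?_⟩
  intro q W R n G B hq hkq hL r b₁ β Y hr hrk hβ hD
  have hq0 : (0 : ℝ) < q := by exact_mod_cast hq.pos
  have hk0 : (0 : ℝ) < k := by
    have : 0 < k := by omega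
    exact_mod_cast this
  have hβ0 : 0 < β := by linarith
  -- choose the positions
  have hD' : ∀ y : X k, ∃ D : Finset ℕ, y ∈ Y → D ⊆ range q ∧
      (∀ b ∈ D, ∃ h ∈ H k q r, phi q b (y + h) ∈ W 1) ∧ β ≤ (D.card : ℝ) := by
    intro y
    by_cases hy : y ∈ Y
    · obtain ⟨D, h⟩ := hD y hy
      exact ⟨D, fun _ => h⟩
    · exact ⟨∅, fun h => absurd h hy⟩
  choose D hDD using hD'
  have key : ∀ i, i ≤ k - r → ∃ (Y' : Finset (X k)) (hd : ℕ → ℕ) (p : ℕ → X k → List ℕ)
      (s : ℕ → X k → X k), Y' ⊆ Y ∧ PJ k q r (k - i) b₁ W R Y' hd p s ∧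
      (Y.card : ℝ) ≤ Y'.card * ((2 * ((q : ℝ) / β)) ^ i *
        ∏ l ∈ Icc 1 (k - 2), ((q : ℝ) / n l) ^ cj k (k - i) R l) := by
    intro i
    induction i with
    | zero =>
      intro _
      refine ⟨Y, fun _ => 0, fun _ _ => [], fun _ _ => 0, Finset.Subset.refl _, ?_, ?_⟩
      · refine ⟨?_, ?_, ?_, ?_⟩
        · intro e h1 h2
          omega
        · intro e h1 h2
          omega
        · intro e e' h1 h2
          omega
        · intro e h1 h2
          omega
      · have h1 : ∀ l, cj k k R l = 0 := by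
          intro l
          unfold cj
          simp
        simp [h1]
    | succ i ih =>
      intro hi
      obtain ⟨Y', hd, p, s, hsub, hP, hcard⟩ := ih (by omega)
      obtain ⟨j, hj⟩ : ∃ j, j = k - (i + 1) := ⟨_, rfl⟩
      have hji : k - i = j + 1 := by omega
      have hj1 : 1 ≤ j := by omega
      have hjk : j < k := by omega
      rw [← hj]
      rw [hji] at hP hcard
      set F : Finset ℕ := insert b₁ ((Ioc (j + 1) k).image hd) with hF
      have hFc : (F.card : ℝ) ≤ k := by
        have h1 : F.card ≤ ((Ioc (j + 1) k).image hd).card + 1 := Finset.card_insert_le _ _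
        have h2 : ((Ioc (j + 1) k).image hd).card ≤ (Ioc (j + 1) k).card := Finset.card_image_le
        rw [Nat.card_Ioc] at h2
        have : F.card ≤ k := by omega
        exact_mod_cast this
      obtain ⟨Y'', p', s', hsub', hpt, hsame, hcard'⟩ := hPP k q r (j + 1) W R n (β / 2) Y'
        (fun y => D y \ F) hq.one_lt.le (by omega) (by linarith)
        (fun l h1 h2 => ⟨by linarith [(hL.hn l h1 (by omega)).1], hL.car l h1 (by omega)⟩)
        (by
          intro y hy
          obtain ⟨h1, h2, h3⟩ := hDD y (hsub hy)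
          refine ⟨Finset.sdiff_subset.trans h1, ?_, ?_⟩
          · have h4 : (D y).card ≤ (D y \ F).card + F.card := by
              exact Finset.card_le_card_sdiff_add_card (s := D y) (t := F)
            have h5 : ((D y).card : ℝ) ≤ ((D y \ F).card : ℝ) + (F.card : ℝ) := by
              exact_mod_cast h4
            linarith
          · intro b hb
            exact h2 b (Finset.sdiff_subset hb))
      -- the head
      have hhd : ∃ b, b ∉ F ∧ ∀ y ∈ Y'', (p' y).head? = some b := by
        by_cases hne : Y''.Nonempty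
        · obtain ⟨y₀, hy₀⟩ := hne
          obtain ⟨-, -, ⟨b, hb, hb'⟩, -⟩ := hpt y₀ hy₀
          refine ⟨b, (Finset.mem_sdiff.1 hb).2, ?_⟩
          intro y hy
          rw [(hsame y hy y₀ hy₀).1]
          exact hb'
        · obtain ⟨b, hb⟩ := Infinite.exists_notMem_finset F
          refine ⟨b, hb, ?_⟩
          intro y hy
          exact absurd ⟨y, hy⟩ hne
      obtain ⟨b, hbF, hbh⟩ := hhd
      have hb1 : b ≠ b₁ := by
        rintro rfl
        exact hbF (Finset.mem_insert_self _ _)
      have hb2 : ∀ e, j + 1 < e → e ≤ k → hd e ≠ b := by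
        intro e h1 h2 h3
        apply hbF
        rw [hF, Finset.mem_insert]
        right
        exact Finset.mem_image.2 ⟨e, Finset.mem_Ioc.2 ⟨h1, h2⟩, h3⟩
      refine ⟨Y'', fun e => if e = j + 1 then b else hd e,
        fun e y => if e = j + 1 then p' y else p e y,
        fun e y => if e = j + 1 then s' y else s e y, hsub'.trans hsub, ?_, ?_⟩
      · refine ⟨?_, ?_, ?_, ?_⟩
        · intro e h1 h2 y hy
          by_cases he : e = j + 1
          · subst he
            simp only [if_true]
            obtain ⟨h3, h4, -, h6, h7⟩ := hpt y hy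
            exact ⟨h3, h4, hbh y hy, h6, h7⟩
          · simp only [if_neg he]
            exact hP.pt e (by omega) h2 y (hsub' hy)
        · intro e h1 h2
          by_cases he : e = j + 1
          · simp only [if_pos he]
            exact hb1
          · simp only [if_neg he]
            exact hP.ne e (by omega) h2
        · intro e e' h1 h2 h3 h4 h5
          by_cases he : e = j + 1
          · by_cases he' : e' = j + 1
            · rw [he, he']
            · simp only [if_pos he, if_neg he'] at h5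
              exact absurd h5.symm (hb2 e' (by omega) h4)
          · by_cases he' : e' = j + 1
            · simp only [if_neg he, if_pos he'] at h5
              exact absurd h5 (hb2 e (by omega) h2)
            · simp only [if_neg he, if_neg he'] at h5
              exact hP.inj e e' (by omega) h2 (by omega) h4 h5
        · intro e h1 h2 y hy y' hy' l h3 h4 h5
          by_cases he : e = j + 1
          · subst he
            simp only [if_true]
            exact (hsame y hy y' hy').2 l h3 h4 h5
          · simp only [if_neg he]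
            exact hP.same e (by omega) h2 y (hsub' hy) y' (hsub' hy') l h3 h4 h5
      · have h1 : 0 ≤ (2 * ((q : ℝ) / β)) ^ i *
            ∏ l ∈ Icc 1 (k - 2), ((q : ℝ) / n l) ^ cj k (j + 1) R l := by
          apply mul_nonneg
          · positivity
          · apply Finset.prod_nonneg
            intro l hl
            have hl' := Finset.mem_Icc.1 hl
            have h3 := (hL.hn l hl'.1 (by omega)).1
            exact pow_nonneg (div_nonneg hq0.le (by linarith)) _
        calc (Y.card : ℝ) ≤ Y'.card * ((2 * ((q : ℝ) / β)) ^ i *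
              ∏ l ∈ Icc 1 (k - 2), ((q : ℝ) / n l) ^ cj k (j + 1) R l) := hcard
          _ ≤ (Y''.card * (((q : ℝ) / (β / 2)) *
              ∏ l ∈ (Icc 1 (j + 1 - 2)).filter (fun l => max 1 (R l) + l < j + 1),
                ((q : ℝ) / n l))) * ((2 * ((q : ℝ) / β)) ^ i *
              ∏ l ∈ Icc 1 (k - 2), ((q : ℝ) / n l) ^ cj k (j + 1) R l) :=
              mul_le_mul_of_nonneg_right hcard' h1
          _ = Y''.card * ((2 * ((q : ℝ) / β)) ^ (i + 1) *
              ((∏ l ∈ Icc 1 (k - 2), ((q : ℝ) / n l) ^ cj k (j + 1) R l) *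
              ∏ l ∈ (Icc 1 (j + 1 - 2)).filter (fun l => max 1 (R l) + l < j + 1),
                ((q : ℝ) / n l))) := by
              have h2 : (q : ℝ) / (β / 2) = 2 * ((q : ℝ) / β) := by
                field_simp
              rw [h2, pow_succ]
              ring
          _ = Y''.card * ((2 * ((q : ℝ) / β)) ^ (i + 1) *
              ∏ l ∈ Icc 1 (k - 2), ((q : ℝ) / n l) ^ cj k j R l) := by
              rw [prod_step k j R (fun l => (q : ℝ) / n l) hj1 hjk]
  obtain ⟨Y', hd, p, s, hsub, hP, hcard⟩ := key (k - r) le_rfl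
  have hkr : k - (k - r) = r := by omega
  rw [hkr] at hP hcard
  refine ⟨Y', hd, p, s, hsub, ?_, ?_⟩
  · refine ⟨?_, ?_, ?_, hP.ne, hP.inj, ?_, ?_, hP.same⟩
    · intro e h1 h2 y hy
      exact (hP.pt e h1 h2 y hy).1
    · intro e h1 h2 y hy
      exact (hP.pt e h1 h2 y hy).2.1
    · intro e h1 h2 y hy
      exact (hP.pt e h1 h2 y hy).2.2.1
    · intro e h1 h2 y hy
      exact (hP.pt e h1 h2 y hy).2.2.2.1
    · intro e h1 h2 y hy
      exact (hP.pt e h1 h2 y hy).2.2.2.2
  · refine hcard.trans ?_
    refine mul_le_mul_of_nonneg_left ?_ (by positivity)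
    have h1 : ∏ l ∈ Icc 1 (k - 2), ((q : ℝ) / n l) ^ cj k r R l =
        ∏ l ∈ Icc 1 (k - 2), ((q : ℝ) / n l) ^ wt k r (R l) l :=
      Finset.prod_congr rfl fun l _ => by rw [cj_wt]
    rw [h1]
    refine mul_le_mul_of_nonneg_right ?_ ?_
    · rw [mul_pow]
      refine mul_le_mul_of_nonneg_right ?_ (by positivity)
      exact pow_le_pow_right₀ (by norm_num) (Nat.sub_le _ _)
    · apply Finset.prod_nonneg
      intro l hl
      have hl' := Finset.mem_Icc.1 hl
      have h3 := (hL.hn l hl'.1 (by omega)).1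
      exact pow_nonneg (div_nonneg hq0.le (by linarith)) _

end Pool.Agent.H24.CLK
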