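import Pool.Agent.H24.CL.Targets

/-!
# Row PH: counting in a coset of `H k q 1` for a chain (helper24, after helper36's row LA)
-/

set_option autoImplicit false

open Finset
open Pool.Agent.H24.CL

namespace Pool.Agent.H24.CLK

theorem phi_eq1 (hTO : T_TO) {k q : ℕ} (hq : 1 ≤ q) (b : ℕ) (y y' : X k)
    (h : y - y' ∈ H k q 1) : phi q b y = phi q b y' := by
  have h1 := (hTO k q hq).2.2.2.2.2 b (y - y') h
  rw [map_sub, sub_eq_zero] at h1
  exact h1

theorem pf_PH (hEX : T_EX) (hTO : T_TO) (hNW : T_NW) : T_PH := by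
  classical
  intro k q m L T ρ t₀ W A n hk hq hkq hL hT hρ ht hC j hj
  have hq1 : 1 ≤ q := hq.one_lt.le
  have hq0 : (0 : ℝ) < q := by exact_mod_cast hq.pos
  have hAj : 0 < A j := lt_of_lt_of_le (by positivity) (hC.A_lo j hj.le)
  have hAj1 : 0 < A (j + 1) := lt_of_lt_of_le (by positivity) (hC.A_lo (j + 1) hj)
  have hnj : 0 < n j := lt_of_lt_of_le one_pos (hC.one_le j hj)
  have hT0 : 0 < T := lt_of_lt_of_le one_pos hT
  have hρ0 : 0 < ρ := lt_of_lt_of_le one_pos hρ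
  intro Y hY hYd
  have hG0 : 0 ≤ Gr q T ρ A n j := by
    rw [Gr]
    positivity
  rcases Y.eq_empty_or_nonempty with rfl | ⟨y₀, hy₀⟩
  · simp only [card_empty, Nat.cast_zero]
    positivity
  set D : Finset ℕ := pos q (W (j + 1)) y₀ with hDdef
  have hpos : ∀ y ∈ Y, pos q (W (j + 1)) y = D := by
    intro y hy
    refine Finset.filter_congr fun b _ => ?_
    rw [phi_eq1 hTO hq1 b y y₀ (hYd y hy y₀ hy₀)]
  have hDr : D ⊆ range q := filter_subset _ _
  let x : ℕ → ℂ := fun b => e (P y₀ b) * u (q ^ (m - (j + 1)) * L) (phi q b y₀)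
  have hxb : ∀ b ∈ D, ‖x b‖ ≤ ρ * A (j + 1) := by
    intro b hb
    simp only [x]
    rw [norm_mul, hEX.1, one_mul]
    exact hC.hi (j + 1) hj _ (mem_filter.mp hb).2
  have h1 := hNW k q hq hkq D x (ρ * A (j + 1)) hDr hxb
  have hval : ∀ y ∈ Y, (q * A j / T) ^ (2 * k) ≤
      ‖∑ b ∈ D, x b * e (P (y - y₀) b)‖ ^ (2 * k) := by
    intro y hy
    have e1 : ∑ b ∈ D, x b * e (P (y - y₀) b) =
        ∑ b ∈ pos q (W (j + 1)) y, e (P y b) * u (q ^ (m - (j + 1)) * L) (phi q b y) := by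
      rw [hpos y hy]
      refine sum_congr rfl fun b hb => ?_
      simp only [x]
      rw [phi_eq1 hTO hq1 b y y₀ (hYd y hy y₀ hy₀)]
      have e2 : P y b = P y₀ b + P (y - y₀) b := by
        rw [← hEX.2.2.2.2.2.2.1]
        congr 1
        abel
      rw [e2, hEX.2.1]
      ring
    rw [e1]
    refine pow_le_pow_left₀ (by positivity) ?_ _
    rw [div_le_iff₀ hT0]
    calc (q : ℝ) * A j ≤ q * ‖u (q ^ (m - j) * L) y‖ :=
          mul_le_mul_of_nonneg_left (hC.lo j hj.le y (hY y hy)) hq0.le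
      _ ≤ _ := hC.carry j hj y (hY y hy)
      _ = _ := mul_comm _ _
  have hinj : Set.InjOn (fun y : X k => y - y₀) Y := by
    intro y _ y' _ h
    exact sub_left_injective h
  have hsub : Y.image (fun y => y - y₀) ⊆ HF k q 1 := by
    intro h hh
    obtain ⟨y, hy, rfl⟩ := mem_image.1 hh
    exact ((hTO k q hq1).2.1 1 _).2 (hYd y hy y₀ hy₀)
  have h2 : (Y.card : ℝ) * (q * A j / T) ^ (2 * k) ≤
      (q : ℝ) ^ k * (Nat.factorial k : ℝ) * (D.card : ℝ) ^ k * (ρ * A (j + 1)) ^ (2 * k) := by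
    calc (Y.card : ℝ) * (q * A j / T) ^ (2 * k) = ∑ _y ∈ Y, (q * A j / T) ^ (2 * k) := by
          rw [sum_const, nsmul_eq_mul]
      _ ≤ ∑ y ∈ Y, ‖∑ b ∈ D, x b * e (P (y - y₀) b)‖ ^ (2 * k) := sum_le_sum hval
      _ = ∑ h ∈ Y.image (fun y => y - y₀), ‖∑ b ∈ D, x b * e (P h b)‖ ^ (2 * k) := by
          rw [sum_image hinj]
      _ ≤ ∑ h ∈ HF k q 1, ‖∑ b ∈ D, x b * e (P h b)‖ ^ (2 * k) :=
          sum_le_sum_of_subset_of_nonneg hsub fun _ _ _ => by positivity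
      _ ≤ _ := h1
  have h3 : (D.card : ℝ) ^ k ≤ (ρ * n j) ^ k :=
    pow_le_pow_left₀ (by positivity) (hC.card_hi j hj y₀ (hY y₀ hy₀)) _
  have h4 : (Y.card : ℝ) * (q * A j / T) ^ (2 * k) ≤
      (q : ℝ) ^ k * (Nat.factorial k : ℝ) * (ρ * n j) ^ k * (ρ * A (j + 1)) ^ (2 * k) := by
    refine h2.trans ?_
    refine mul_le_mul_of_nonneg_right ?_ (by positivity)
    exact mul_le_mul_of_nonneg_left h3 (by positivity)
  have hfin : (Nat.factorial k : ℝ) * Gr q T ρ A n j ^ k =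
      (q : ℝ) ^ k * (Nat.factorial k : ℝ) * (ρ * n j) ^ k * (ρ * A (j + 1)) ^ (2 * k) /
        (q * A j / T) ^ (2 * k) := by
    have e1 : Gr q T ρ A n j = q * ((ρ * n j) * (ρ * A (j + 1)) ^ 2) / (q * A j / T) ^ 2 := by
      rw [Gr]
      field_simp
    rw [e1, div_pow, pow_mul (q * A j / T) 2 k, pow_mul (ρ * A (j + 1)) 2 k, mul_pow, mul_pow]
    ring
  rw [hfin, le_div_iff₀ (by positivity)]
  exact h4

end Pool.Agent.H24.CLK
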