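import Pool.Agent.H24.CLK.WT

/-!
# The final statement from the rows (helper24)
-/

set_option autoImplicit false

open Finset MeasureTheory

namespace Pool.Agent.H24.CLK

open Pool.Agent.H24.CL Pool.Agent.H67.CLV

theorem final (hIT : TK_IT) (hFI : TK_FI) (hPF : T_PF) (hMP : T_MP) : ∀ k : ℕ, 3 ≤ k →
    ∃ C : ℝ, ∀ N : ℕ, 1 ≤ N →
      (∀ t : ℝ, 0 < t →
        (volume : Measure (X k)).real {a : X k | t ≤ ‖f1 N a‖} * t ^ (k * (k + 1)) ≤
          C * (N : ℝ) ^ (k * (k + 1) / 2)) ∧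
      ((Pool.Agent.H22.VM.sols (k * (k + 1) / 2) k N).card : ℝ) ≤
        C * (N : ℝ) ^ (k * (k + 1) / 2) * (1 + Real.log N) := by
  intro k hk
  obtain ⟨C₁, h1⟩ := pf_WT hIT hPF hMP k hk
  obtain ⟨C₂, h2⟩ := hFI k hk
  refine ⟨max C₁ C₂, fun N hN => ⟨fun t ht => ?_, ?_⟩⟩
  · have h3 := h1 N hN t ht
    have h4 : 2 * KN k = k * (k + 1) := by
      unfold KN
      exact Nat.mul_div_cancel' (Nat.even_mul_succ_self k).two_dvd
    rw [h4, mul_comm] at h3
    refine h3.trans ?_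
    exact mul_le_mul_of_nonneg_right (le_max_left _ _) (by positivity)
  · have h3 := h2 N hN
    have hlog : 0 ≤ Real.log N := Real.log_nonneg (by exact_mod_cast hN)
    refine h3.trans ?_
    have : C₂ * (N : ℝ) ^ KN k ≤ max C₁ C₂ * (N : ℝ) ^ (k * (k + 1) / 2) :=
      mul_le_mul_of_nonneg_right (le_max_right _ _) (by positivity)
    exact mul_le_mul_of_nonneg_right this (by linarith)

end Pool.Agent.H24.CLK
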