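import Pool.Agent.H24.CL.TargetsK

/-!
# The central lemma from the popular paths and the induction on the digits (helper24)
-/

set_option autoImplicit false

open Finset MeasureTheory

namespace Pool.Agent.H24.CLK

open Pool.Agent.H24.CL

theorem pf_ZL (hPA : TK_PA) (hIN : TK_IN) : TK_ZL := by
  intro k hk
  obtain ⟨C, hC, hPA⟩ := hPA k hk
  obtain ⟨c, hIN⟩ := hIN k hk
  refine ⟨C, c, hC, ?_⟩
  intro q W R n G B hq hkq hL r b₁ β Y hr hrk hb hβ hD hdiff hinj
  obtain ⟨Y', hd, p, s, hsub, hP, hcard⟩ := hPA q W R n G B hq hkq hL r b₁ β Y hr hrk hβ hD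
  have h1 := hIN q W R n G B hq hkq hL r b₁ Y' hd p s hr hrk hb hP
    (fun y hy y' hy' => hdiff y (hsub hy) y' (hsub hy'))
    (fun y hy y' hy' => hinj y (hsub hy) y' (hsub hy'))
  have hk0 : (0 : ℝ) < k := by
    have : 0 < k := by omega
    exact_mod_cast this
  have hβ0 : 0 < β := by linarith
  have hq0 : (0 : ℝ) < q := by exact_mod_cast hq.pos
  have h2 : 0 ≤ C * ((q : ℝ) / β) ^ (k - r) *
      ∏ l ∈ Icc 1 (k - 2), ((q : ℝ) / n l) ^ wt k r (R l) l := by
    apply mul_nonneg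
    · exact mul_nonneg (by linarith) (pow_nonneg (div_nonneg hq0.le hβ0.le) _)
    · apply Finset.prod_nonneg
      intro l hl
      have hl' := Finset.mem_Icc.1 hl
      have h3 := (hL.hn l hl'.1 (by omega)).1
      exact pow_nonneg (div_nonneg hq0.le (by linarith)) _
  calc (Y.card : ℝ) ≤ Y'.card * (C * ((q : ℝ) / β) ^ (k - r) *
        ∏ l ∈ Icc 1 (k - 2), ((q : ℝ) / n l) ^ wt k r (R l) l) := hcard
    _ ≤ (B ^ c * ∏ l ∈ Icc r (k - 1), G l ^ (k - l)) * (C * ((q : ℝ) / β) ^ (k - r) *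
        ∏ l ∈ Icc 1 (k - 2), ((q : ℝ) / n l) ^ wt k r (R l) l) :=
        mul_le_mul_of_nonneg_right h1 h2
    _ = C * B ^ c * ((q : ℝ) / β) ^ (k - r) * ZB k q r R n G := by
        unfold ZB
        ring

end Pool.Agent.H24.CLK
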