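import Pool.Agent.H24.CL.TargetsK
import Pool.Agent.H67.CLV.JI

/-!
# The weak type estimate at the critical exponent from the bounded functional (helper24)
-/

set_option autoImplicit false

open Finset MeasureTheory

namespace Pool.Agent.H24.CLK

open Pool.Agent.H24.CL Pool.Agent.H67.CLV

theorem f_cont' {k : ℕ} (N : ℕ) : Continuous (fun a : X k => f N a) := by
  simp_rw [f_eq]
  exact continuous_finsetSum _ fun n _ => chi_cont _

theorem level_eq (hPF : T_PF) (hMP : T_MP) {k : ℕ} (N : ℕ) (t : ℝ) :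
    (volume : Measure (X k)).real {a : X k | t ≤ ‖f1 N a‖} =
      (volume : Measure (X k)).real {a : X k | t ≤ ‖f N a‖} := by
  obtain ⟨hc, _, hm⟩ := hMP k 1 1 le_rfl
  have h1 : {a : X k | t ≤ ‖f1 N a‖} = (phi 1 1 : X k → X k) ⁻¹' {a : X k | t ≤ ‖f N a‖} := by
    ext a
    simp only [Set.mem_setOf_eq, Set.mem_preimage]
    rw [f1_norm hPF]
  have h2 : MeasurableSet {a : X k | t ≤ ‖f N a‖} :=
    measurableSet_le measurable_const (f_cont' N).norm.measurable
  rw [h1]
  unfold Measure.real
  rw [hm.measure_preimage h2.nullMeasurableSet]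

/-- the weak type estimate -/
theorem pf_WT (hIT : TK_IT) (hPF : T_PF) (hMP : T_MP) : ∀ k : ℕ, 3 ≤ k → ∃ C : ℝ, ∀ N : ℕ, 1 ≤ N →
    ∀ t : ℝ, 0 < t →
      t ^ (2 * KN k) * (volume : Measure (X k)).real {a : X k | t ≤ ‖f1 N a‖} ≤
        C * (N : ℝ) ^ (KN k) := by
  intro k hk
  obtain ⟨C₀, hC₀, hIT⟩ := hIT k hk
  refine ⟨max 1 (2 * C₀), ?_⟩
  intro N hN t ht
  rw [level_eq hPF hMP]
  have hN0 : (0 : ℝ) < N := by exact_mod_cast hN
  have hNK : (0 : ℝ) < (N : ℝ) ^ (KN k) := pow_pos hN0 _
  have hvol1 : (volume : Measure (X k)).real {a : X k | t ≤ ‖f N a‖} ≤ 1 := by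
    have := measureReal_mono (μ := (volume : Measure (X k)))
      (Set.subset_univ {a : X k | t ≤ ‖f N a‖})
    rwa [vol_univ] at this
  have hvol0 : 0 ≤ (volume : Measure (X k)).real {a : X k | t ≤ ‖f N a‖} := measureReal_nonneg
  by_cases h1 : (N : ℝ) < t
  · have hemp : {a : X k | t ≤ ‖f N a‖} = ∅ := by
      ext a
      simp only [Set.mem_setOf_eq, Set.mem_empty_iff_false, iff_false, not_le]
      have h3 : ‖f N a‖ ≤ N := by
        unfold f
        refine (norm_sum_le _ _).trans ?_
        simp [e_norm]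
      linarith
    rw [hemp, measureReal_empty, mul_zero]
    have : (1 : ℝ) ≤ max 1 (2 * C₀) := le_max_left _ _
    positivity
  by_cases h2 : t ^ 2 < N
  · calc t ^ (2 * KN k) * (volume : Measure (X k)).real {a : X k | t ≤ ‖f N a‖}
        ≤ t ^ (2 * KN k) * 1 := mul_le_mul_of_nonneg_left hvol1 (by positivity)
      _ = (t ^ 2) ^ (KN k) := by rw [mul_one, pow_mul]
      _ ≤ (N : ℝ) ^ (KN k) := pow_le_pow_left₀ (by positivity) h2.le _
      _ = 1 * (N : ℝ) ^ (KN k) := by ring
      _ ≤ max 1 (2 * C₀) * (N : ℝ) ^ (KN k) :=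
        mul_le_mul_of_nonneg_right (le_max_left _ _) hNK.le
  · have ht2 : (0 : ℝ) < t ^ 2 := by positivity
    set M : ℝ := (N : ℝ) ^ 2 / t ^ 2 with hM
    have hM1 : 1 ≤ M := by
      rw [hM, le_div_iff₀ ht2, one_mul]
      exact pow_le_pow_left₀ ht.le (not_lt.1 h1) 2
    have hMN : M ≤ N := by
      rw [hM, div_le_iff₀ ht2]
      nlinarith [not_lt.1 h2]
    have h3 := hIT M N hM1 hMN
    unfold SM at h3
    have hr : (N : ℝ) / M = t ^ 2 / N := by
      rw [hM]
      field_simp
    have hcont : Continuous (fun a : X k => max (M * ‖u N a‖ ^ 2 - 1 / 2) 0) := by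
      have : Continuous (fun a : X k => u N a) := by
        unfold u
        exact (f_cont' N).div_const _
      exact ((continuous_const.mul (this.norm.pow 2)).sub continuous_const).max continuous_const
    have hint : Integrable (fun a : X k => max (M * ‖u N a‖ ^ 2 - 1 / 2) 0)
        (volume : Measure (X k)) := intble hcont
    have hms : MeasurableSet {a : X k | t ≤ ‖f N a‖} :=
      measurableSet_le measurable_const (f_cont' N).norm.measurable
    have h4 : (1 / 2 : ℝ) * (volume : Measure (X k)).real {a : X k | t ≤ ‖f N a‖} ≤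
        ∫ a : X k, max (M * ‖u N a‖ ^ 2 - 1 / 2) 0 := by
      have h5 : ∫ a : X k, ({a : X k | t ≤ ‖f N a‖}).indicator (fun _ => (1 / 2 : ℝ)) a =
          (1 / 2 : ℝ) * (volume : Measure (X k)).real {a : X k | t ≤ ‖f N a‖} := by
        rw [integral_indicator_const _ hms]
        simp [mul_comm]
      rw [← h5]
      refine integral_mono ?_ hint ?_
      · exact (integrable_const (1 / 2 : ℝ)).indicator hms
      · intro a
        simp only [Set.indicator]
        split_ifs with ha
        · have ha' : t ≤ ‖f N a‖ := ha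
          have h6 : M * ‖u N a‖ ^ 2 = ‖f N a‖ ^ 2 / t ^ 2 := by
            unfold u
            rw [norm_div, Complex.norm_natCast, div_pow, hM]
            field_simp
          have h7 : 1 ≤ ‖f N a‖ ^ 2 / t ^ 2 := by
            rw [le_div_iff₀ ht2, one_mul]
            exact pow_le_pow_left₀ ht.le ha' 2
          apply le_max_of_le_left
          rw [h6]
          linarith
        · exact le_max_right _ _
    have h8 : ((N : ℝ) / M) ^ (KN k) * ((1 / 2 : ℝ) *
        (volume : Measure (X k)).real {a : X k | t ≤ ‖f N a‖}) ≤ C₀ :=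
      (mul_le_mul_of_nonneg_left h4 (by rw [hr]; positivity)).trans h3
    rw [hr, div_pow, ← pow_mul] at h8
    have h9 : t ^ (2 * KN k) * (volume : Measure (X k)).real {a : X k | t ≤ ‖f N a‖} ≤
        2 * C₀ * (N : ℝ) ^ (KN k) := by
      have h10 := mul_le_mul_of_nonneg_right h8 hNK.le
      have h11 : t ^ (2 * KN k) / (N : ℝ) ^ (KN k) * ((1 / 2 : ℝ) *
          (volume : Measure (X k)).real {a : X k | t ≤ ‖f N a‖}) * (N : ℝ) ^ (KN k) =
          (1 / 2) * (t ^ (2 * KN k) *
            (volume : Measure (X k)).real {a : X k | t ≤ ‖f N a‖}) := by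
        field_simp
      rw [h11] at h10
      linarith
    exact h9.trans (mul_le_mul_of_nonneg_right (le_max_right _ _) hNK.le)

end Pool.Agent.H24.CLK
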